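import Pool.Agent.Helper84.BT.Goals

/-!
# Project BT, packet RVA: 2-adic valuations of the Runge sums.
-/

set_option autoImplicit false

open Finset

namespace Pool.Agent.Helper13.BT.RVA

open Pool.Agent.Helper84.BT

/-- the 2-adic valuation of the central binomial coefficient -/
def va (n : ℕ) : ℕ := padicValNat 2 (Nat.centralBinom n)

lemma va_succ (n : ℕ) : va (n + 1) ≤ va n + 1 := by
  have h := Nat.succ_mul_centralBinom_succ n
  have h1 : padicValNat 2 ((n + 1) * Nat.centralBinom (n + 1)) =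
      padicValNat 2 (n + 1) + va (n + 1) :=
    padicValNat.mul (Nat.succ_ne_zero n) (Nat.centralBinom_ne_zero _)
  have h2 : padicValNat 2 (2 * (2 * n + 1) * Nat.centralBinom n) = 1 + va n := by
    rw [padicValNat.mul (by omega) (Nat.centralBinom_ne_zero _),
      padicValNat.mul (by omega) (by omega), padicValNat_self,
      padicValNat.eq_zero_of_not_dvd (by omega : ¬ 2 ∣ 2 * n + 1)]
    rfl
  rw [h, h2] at h1
  omega

lemma va_le (j d : ℕ) : va (j + d) ≤ va j + d := by
  induction d with
  | zero => simp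
  | succ d ih =>
    have h := va_succ (j + d)
    have h1 : j + (d + 1) = j + d + 1 := rfl
    rw [h1]
    omega

lemma term_dvd {j s : ℕ} (h : j < s) (z : ℕ) :
    2 ^ (va s + 1) ∣ Nat.centralBinom j * 4 ^ (s - j) * z := by
  have h1 : va s ≤ va j + (s - j) := by
    have h2 := va_le j (s - j)
    rwa [Nat.add_sub_cancel' h.le] at h2
  refine Dvd.dvd.mul_right ?_ z
  refine (pow_dvd_pow 2 (by omega : va s + 1 ≤ va j + 2 * (s - j))).trans ?_
  rw [pow_add, pow_mul]
  exact mul_dvd_mul pow_padicValNat_dvd (dvd_refl _)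

theorem t : S_RVA := by
  intro s t x y _ hts _ _ h
  have h1 : 2 ^ (va s + 1) ∣ 4 ^ (s - t) * Rr t y := by
    unfold Rr
    rw [Finset.mul_sum]
    refine Finset.dvd_sum fun j hj => ?_
    have hjt : j ≤ t := Nat.lt_succ_iff.1 (Finset.mem_range.1 hj)
    have h2 : 4 ^ (s - t) * (Nat.centralBinom j * 4 ^ (t - j) * y ^ (t - j)) =
        Nat.centralBinom j * 4 ^ (s - j) * y ^ (t - j) := by
      rw [show s - j = (s - t) + (t - j) by omega, pow_add]
      ring
    rw [h2]
    exact term_dvd (lt_of_le_of_lt hjt hts) _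
  rw [← h] at h1
  unfold Rr at h1
  rw [Finset.sum_range_succ, Nat.sub_self, pow_zero, pow_zero, mul_one, mul_one] at h1
  have h3 : 2 ^ (va s + 1) ∣ ∑ j ∈ range s, Nat.centralBinom j * 4 ^ (s - j) * x ^ (s - j) :=
    Finset.dvd_sum fun j hj => term_dvd (Finset.mem_range.1 hj) _
  have h4 := (Nat.dvd_add_right h3).1 h1
  exact pow_succ_padicValNat_not_dvd (Nat.centralBinom_ne_zero s) h4

end Pool.Agent.Helper13.BT.RVA
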